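import Mathlib
import Pool.Agent.H14.Sig

namespace Pool.Agent.Results.MP_d14146_co.SigL1

/-- Every connected graph on n ≥ 2 vertices has a SIG-metric that embeds in l1. -/
theorem result :
    ∀ (n : ℕ), 2 ≤ n → ∀ G : SimpleGraph (Fin n), G.Connected →
      ∃ (d : Fin n → Fin n → ℝ) (r : Fin n → ℝ),
        (∀ i j, 0 ≤ d i j) ∧ (∀ i j, d i j = d j i) ∧ (∀ i j, d i j = 0 ↔ i = j) ∧
        (∀ i j k, d i k ≤ d i j + d j k) ∧
        (∀ i, IsLeast {t : ℝ | ∃ j, j ≠ i ∧ t = d i j} (r i)) ∧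
        (∀ i j, i ≠ j → (G.Adj i j → d i j < r i + r j) ∧ (¬ G.Adj i j → r i + r j ≤ d i j)) ∧
        ∃ (m : ℕ) (X : Fin n → Fin m → ℝ), 1 ≤ m ∧ ∀ i j, d i j = ∑ k, |X i k - X j k| := by
  intro n hn G hG
  obtain ⟨w, T, r, hpos, hr, hsig⟩ := Pool.Agent.H14.Sig.main G hG (by simpa using hn)
  refine ⟨fun i j => Pool.Agent.H14.Sig.ds w (T i) (T j), r,
    fun i j => Pool.Agent.H14.Sig.ds_nonneg _ _ _, fun i j => Pool.Agent.H14.Sig.ds_comm _ _ _,
    ?_, fun i j k => Pool.Agent.H14.Sig.ds_tri _ _ _ _, hr, hsig, ?_⟩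
  · intro i j
    constructor
    · intro h
      by_contra hij
      have := (hr i).2 ⟨j, Ne.symm hij, rfl⟩
      have := hpos i
      simp only at h
      linarith
    · rintro rfl
      exact Pool.Agent.H14.Sig.ds_self _ _
  · let e := Fintype.equivFin (Fin n × Option (Fin n))
    refine ⟨Fintype.card (Fin n × Option (Fin n)),
      fun i k => Pool.Agent.H14.Sig.pt w (T i) (e.symm k), ?_, ?_⟩
    · have : Nonempty (Fin n × Option (Fin n)) := ⟨(⟨0, by omega⟩, none)⟩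
      exact Fintype.card_pos
    · intro i j
      exact (Equiv.sum_comp e.symm
        (fun c => |Pool.Agent.H14.Sig.pt w (T i) c - Pool.Agent.H14.Sig.pt w (T j) c|)).symm

end Pool.Agent.Results.MP_d14146_co.SigL1
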